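import Pool.Agent.W96.CL.Stm
import Pool.Agent.H906R3.CY.PF

set_option autoImplicit false

open Filter Topology Finset

namespace W96CL

namespace PFaux

section general

variable {ι : Type} [Fintype ι] [DecidableEq ι] [Nonempty ι]

/-- comparison of eigenvalues with positive eigenvectors -/
theorem eig_le (A : Matrix ι ι ℝ) (h0 : ∀ i j, 0 ≤ A i j) (v u : ι → ℝ) (L l : ℝ)
    (hv : ∀ i, 0 < v i) (hu : ∀ i, 0 < u i) (hAv : A.mulVec v = L • v) (hAu : A.mulVec u = l • u) :
    L ≤ l := by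
  obtain ⟨i0, hi0⟩ := Finite.exists_min (fun i => u i / v i)
  set c : ℝ := u i0 / v i0 with hc
  have hx0 : ∀ i, 0 ≤ u i - c * v i := by
    intro i
    have := hi0 i
    rw [le_div_iff₀ (hv i)] at this
    linarith
  have hxi0 : c * v i0 = u i0 := by rw [hc, div_mul_cancel₀ _ (hv i0).ne']
  have h1 : 0 ≤ A.mulVec (fun i => u i - c * v i) i0 := by
    unfold Matrix.mulVec dotProduct
    exact sum_nonneg fun j _ => mul_nonneg (h0 i0 j) (hx0 j)
  have h2 : A.mulVec (fun i => u i - c * v i) i0 = l * u i0 - c * (L * v i0) := by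
    have e1 : (fun i => u i - c * v i) = u - c • v := rfl
    rw [e1, Matrix.mulVec_sub, Matrix.mulVec_smul, hAv, hAu]
    simp
  rw [h2] at h1
  have h3 : l * u i0 - c * (L * v i0) = (l - L) * u i0 := by
    rw [← hxi0]; ring
  rw [h3] at h1
  have := (mul_nonneg_iff_of_pos_right (hu i0)).1 h1
  linarith

theorem uniq (A : Matrix ι ι ℝ) (h0 : ∀ i j, 0 ≤ A i j) (m : ℕ)
    (h1 : ∀ i j, 0 < (∑ l ∈ range m, A ^ l) i j) (v : ι → ℝ) (L : ℝ)
    (hv : ∀ i, 0 < v i) (hvs : ∑ i, v i = 1) (hAv : A.mulVec v = L • v) (u : ι → ℝ) (l : ℝ)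
    (hu0 : ∀ i, 0 ≤ u i) (hus : ∑ i, u i = 1) (hAu : A.mulVec u = l • u) : u = v := by
  have hune : u ≠ 0 := by
    rintro rfl
    simp at hus
  have hu : ∀ i, 0 < u i := by
    intro i
    have h3 := H906C.pf_pos _ h1 u hu0 hune i
    rw [H906C.pf_sum A u l hAu m] at h3
    have h4 : 0 < (∑ k ∈ range m, l ^ k) * u i := h3
    rcases (hu0 i).lt_or_eq with h5 | h5
    · exact h5
    · rw [← h5, mul_zero] at h4
      exact absurd h4 (lt_irrefl _)
  have hL : l = L := le_antisymm (eig_le A h0 u v l L hu hv hAu hAv)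
    (eig_le A h0 v u L l hv hu hAv hAu)
  rw [hL] at hAu
  obtain ⟨c, hc⟩ := H906C.pf_real A m h1 v L hv hAv u hAu
  have h2 : ∑ i, u i = c * ∑ i, v i := by
    rw [mul_sum]
    exact sum_congr rfl fun i _ => hc i
  rw [hus, hvs, mul_one] at h2
  funext i
  rw [hc i, ← h2, one_mul]

theorem cont (A : ℝ → Matrix ι ι ℝ) (s : Set ℝ) (hA : ∀ a b, Continuous (fun p => A p a b))
    (h0 : ∀ p ∈ s, ∀ i j, 0 ≤ A p i j)
    (h1 : ∀ p ∈ s, ∃ m : ℕ, ∀ i j, 0 < (∑ l ∈ range m, (A p) ^ l) i j)
    (v : ℝ → ι → ℝ) (L : ℝ → ℝ) (hv : ∀ p ∈ s, ∀ i, 0 < v p i) (hvs : ∀ p ∈ s, ∑ i, v p i = 1)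
    (hAv : ∀ p ∈ s, (A p).mulVec (v p) = L p • v p) : ContinuousOn v s := by
  classical
  intro p hp
  refine tendsto_of_subseq_tendsto fun ns hns => ?_
  obtain ⟨hns1, hns2⟩ := tendsto_nhdsWithin_iff.1 hns
  set ns' : ℕ → ℝ := fun k => if ns k ∈ s then ns k else p with hns'
  have hmem : ∀ k, ns' k ∈ s := by
    intro k
    simp only [hns']
    split_ifs with h
    · exact h
    · exact hp
  have heq : ∀ᶠ k in atTop, ns' k = ns k := by
    filter_upwards [hns2] with k hk
    simp only [hns']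
    rw [if_pos hk]
  have hlim' : Tendsto ns' atTop (𝓝 p) := by
    refine hns1.congr' ?_
    filter_upwards [heq] with k hk
    exact hk.symm
  obtain ⟨u, hu, φ, hφ, hlim⟩ := (isCompact_stdSimplex ℝ ι).tendsto_subseq
    (x := fun k => v (ns' k)) (fun k => ⟨fun i => (hv _ (hmem k) i).le, hvs _ (hmem k)⟩)
  have hlimc : ∀ i, Tendsto (fun k => v (ns' (φ k)) i) atTop (𝓝 (u i)) := fun i =>
    (tendsto_pi_nhds.1 hlim) i
  have hlp : Tendsto (fun k => ns' (φ k)) atTop (𝓝 p) := hlim'.comp hφ.tendsto_atTop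
  have hmul : ∀ i, Tendsto (fun k => (A (ns' (φ k))).mulVec (v (ns' (φ k))) i) atTop
      (𝓝 ((A p).mulVec u i)) := by
    intro i
    unfold Matrix.mulVec dotProduct
    exact tendsto_finsetSum _ fun j _ =>
      (((hA i j).tendsto p).comp hlp).mul (hlimc j)
  have hsum : Tendsto (fun k => ∑ i, (A (ns' (φ k))).mulVec (v (ns' (φ k))) i) atTop
      (𝓝 (∑ i, (A p).mulVec u i)) := tendsto_finsetSum _ fun i _ => hmul i
  have hL : ∀ q ∈ s, L q = ∑ i, (A q).mulVec (v q) i := by
    intro q hq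
    rw [hAv q hq]
    simp only [Pi.smul_apply, smul_eq_mul]
    rw [← mul_sum, hvs q hq, mul_one]
  have hAu : (A p).mulVec u = (∑ i, (A p).mulVec u i) • u := by
    funext i
    refine tendsto_nhds_unique (hmul i) ?_
    have e1 : (fun k => (A (ns' (φ k))).mulVec (v (ns' (φ k))) i) = fun k =>
        (∑ i, (A (ns' (φ k))).mulVec (v (ns' (φ k))) i) * v (ns' (φ k)) i := by
      funext k
      rw [← hL _ (hmem (φ k)), hAv _ (hmem (φ k))]
      rfl
    rw [e1]
    exact hsum.mul (hlimc i)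
  obtain ⟨m, hm⟩ := h1 p hp
  have huv : u = v p := uniq (A p) (h0 p hp) m hm (v p) (L p) (hv p hp) (hvs p hp) (hAv p hp) u _
    hu.1 hu.2 hAu
  refine ⟨φ, ?_⟩
  rw [huv] at hlim
  refine hlim.congr' ?_
  filter_upwards [hφ.tendsto_atTop.eventually heq] with k hk
  simp only [Function.comp]
  rw [hk]

end general

variable (n : ℕ)

theorem lay_diff (m : ℕ) : ∀ (i : ℕ) (a b : St n), Differentiable ℝ (fun p => layR n p i m a b) := by
  induction m with
  | zero =>
    intro i a b
    simp only [layR]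
    exact differentiable_const _
  | succ m ih =>
    intro i a b
    have e : (fun p => layR n p i (m + 1) a b) = fun p => ∑ c, (p * (1 : Matrix (St n) (St n) ℝ) a c
        + (1 - p) * ER n i a c) * layR n p (i + 2) m c b := by
      funext p
      simp only [layR, Matrix.mul_apply, Matrix.add_apply, Matrix.smul_apply, smul_eq_mul]
    rw [e]
    refine Differentiable.fun_sum fun c _ => ?_
    refine Differentiable.mul ?_ (ih (i + 2) c b)
    exact (differentiable_id.mul_const _).add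
      (((differentiable_const _).sub differentiable_id).mul_const _)

theorem lay_zero (m : ℕ) : ∀ i : ℕ, layR n 0 i m = lay0 (ER n) i m := by
  induction m with
  | zero => intro i; rfl
  | succ m ih =>
    intro i
    simp only [layR, lay0]
    rw [ih (i + 2)]
    simp

theorem TT_cont (a b : St n) : Continuous (fun p => TT n p a b) := by
  have e : (fun p => TT n p a b) = fun p => ∑ c, layR n p 1 (n - 1) a c * layR n p 0 n c b := by
    funext p
    simp only [TT, Matrix.mul_apply]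
  rw [e]
  exact continuous_finsetSum _ fun c _ =>
    ((lay_diff n _ 1 a c).continuous.mul (lay_diff n _ 0 c b).continuous)

end PFaux

theorem cl_pf (h : S_rep) (hi : S_irr) : S_pf := by
  intro n hn
  obtain ⟨-, -, hz0, hz1, -, -⟩ := h n hn
  have hex : ∀ p : ℝ, ∃ (v : St n → ℝ) (L : ℝ), 0 < p → p < 1 →
      (∀ s, 0 < v s) ∧ ∑ s, v s = 1 ∧ 0 < L ∧ (TT n p).mulVec v = L • v ∧
        ∀ u : St n → ℂ, ((TT n p).map (algebraMap ℝ ℂ)).mulVec u = (L : ℂ) • u →
          ∃ c : ℂ, u = fun s => c * (v s : ℂ) := by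
    intro p
    by_cases hp : 0 < p ∧ p < 1
    · obtain ⟨a1, a2, ⟨m, a3⟩, a4⟩ := hi n p hn hp.1 hp.2
      obtain ⟨v, L, b⟩ := H906C.perron (TT n p) a1 m a3 ⟨st0 n, st0 n, a2 _⟩
      exact ⟨v, L, fun _ _ => b⟩
    · exact ⟨0, 0, fun h1 h2 => absurd ⟨h1, h2⟩ hp⟩
  choose v L hvL using hex
  have hlow : ∀ p, 0 < p → p < 1 → p * (1 - p) ^ (2 * n - 2) ≤ L p := by
    intro p hp0 hp1
    obtain ⟨a1, a2, -, a4⟩ := hi n p hn hp0 hp1
    obtain ⟨b1, b2, b3, b4, b5⟩ := hvL p hp0 hp1
    refine a4.trans ?_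
    have h1 : (TT n p).mulVec (v p) (st0 n) = L p * v p (st0 n) := by rw [b4]; rfl
    have h2 : TT n p (st0 n) (st0 n) * v p (st0 n) ≤ (TT n p).mulVec (v p) (st0 n) := by
      unfold Matrix.mulVec dotProduct
      exact single_le_sum (f := fun j => TT n p (st0 n) j * v p j)
        (fun j _ => mul_nonneg (a1 _ _) (b1 j).le) (mem_univ (st0 n))
    rw [h1] at h2
    exact le_of_mul_le_mul_right h2 (b1 _)
  refine ⟨v, L, ?_, ?_, ?_⟩
  · intro p hp0 hp1
    obtain ⟨b1, b2, b3, b4, b5⟩ := hvL p hp0 hp1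
    exact ⟨b1, b2, b3, hlow p hp0 hp1, b4, b5⟩
  · have hc := PFaux.cont (fun p => TT n p) (Set.Ioo 0 1) (PFaux.TT_cont n)
      (fun p hp => (hi n p hn hp.1 hp.2).1) (fun p hp => (hi n p hn hp.1 hp.2).2.2.1) v L
      (fun p hp => (hvL p hp.1 hp.2).1) (fun p hp => (hvL p hp.1 hp.2).2.1)
      (fun p hp => (hvL p hp.1 hp.2).2.2.2.1)
    intro s
    exact (continuous_apply s).comp_continuousOn hc
  · -- the limit at 0
    have hIoo : Set.Ioo (0 : ℝ) (1 / 2) ∈ 𝓝[>] (0 : ℝ) := Ioo_mem_nhdsGT (by norm_num)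
    -- entries of the lower layer are O(p)
    have hO : ∀ a b : St n, ∃ C : ℝ, 0 ≤ C ∧ ∀ᶠ p in 𝓝[>] (0 : ℝ), |layR n p 0 n a b| ≤ C * p := by
      intro a b
      have h1 : (fun p => layR n p 0 n a b - layR n 0 0 n a b) =O[𝓝 0] fun p => p - 0 :=
        ((PFaux.lay_diff n n 0 a b) 0).isBigO_sub
      obtain ⟨C, hC0, hC⟩ := h1.exists_nonneg
      refine ⟨C, hC0, ?_⟩
      have h2 : ∀ᶠ p in 𝓝[>] (0 : ℝ), ‖layR n p 0 n a b - layR n 0 0 n a b‖ ≤ C * ‖p - 0‖ :=
        (hC.bound).filter_mono nhdsWithin_le_nhds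
      filter_upwards [h2, hIoo] with p hp hp'
      rw [PFaux.lay_zero, hz0] at hp
      simp only [Matrix.zero_apply, sub_zero, Real.norm_eq_abs] at hp
      rwa [abs_of_pos hp'.1] at hp
    choose C hC0 hC using hO
    set K : ℝ := (∑ a, ∑ b, C a b) * 2 ^ (2 * n - 2) with hK
    -- the intermediate vector is bounded
    have hw : ∀ᶠ p in 𝓝[>] (0 : ℝ), ∀ a : St n,
        |(layR n p 0 n).mulVec (v p) a / L p| ≤ K := by
      have hall : ∀ᶠ p in 𝓝[>] (0 : ℝ), ∀ a b : St n, |layR n p 0 n a b| ≤ C a b * p := by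
        rw [eventually_all]
        intro a
        rw [eventually_all]
        intro b
        exact hC a b
      filter_upwards [hall, hIoo] with p hp hp' a
      have hp1 : p < 1 := by have := hp'.2; linarith
      obtain ⟨b1, b2, b3, b4, b5⟩ := hvL p hp'.1 hp1
      have hvle : ∀ s, v p s ≤ 1 := by
        intro s
        rw [← b2]
        exact single_le_sum (f := fun s => v p s) (fun s _ => (b1 s).le) (mem_univ s)
      have h1 : |(layR n p 0 n).mulVec (v p) a| ≤ (∑ a, ∑ b, C a b) * p := by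
        unfold Matrix.mulVec dotProduct
        calc |∑ b, layR n p 0 n a b * v p b| ≤ ∑ b, |layR n p 0 n a b * v p b| :=
              abs_sum_le_sum_abs _ _
          _ ≤ ∑ b, C a b * p := by
              refine sum_le_sum fun b _ => ?_
              rw [abs_mul, abs_of_pos (b1 b)]
              calc |layR n p 0 n a b| * v p b ≤ (C a b * p) * 1 :=
                    mul_le_mul (hp a b) (hvle b) (b1 b).le
                      (mul_nonneg (hC0 a b) hp'.1.le)
                _ = _ := mul_one _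
          _ = (∑ b, C a b) * p := by rw [sum_mul]
          _ ≤ _ := by
              refine mul_le_mul_of_nonneg_right ?_ hp'.1.le
              exact single_le_sum (f := fun a => ∑ b, C a b)
                (fun a _ => sum_nonneg fun b _ => hC0 a b) (mem_univ a)
      have hS : 0 ≤ ∑ a, ∑ b, C a b := sum_nonneg fun a _ => sum_nonneg fun b _ => hC0 a b
      rw [abs_div, abs_of_pos b3, div_le_iff₀ b3]
      refine h1.trans ?_
      have h2 := hlow p hp'.1 hp1
      have h3 : (1 / 2 : ℝ) ^ (2 * n - 2) ≤ (1 - p) ^ (2 * n - 2) :=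
        pow_le_pow_left₀ (by norm_num) (by have := hp'.2; linarith) _
      have h4 : p ≤ 2 ^ (2 * n - 2) * L p := by
        calc p = 2 ^ (2 * n - 2) * (p * (1 / 2 : ℝ) ^ (2 * n - 2)) := by
              rw [one_div, inv_pow]
              field_simp
          _ ≤ 2 ^ (2 * n - 2) * (p * (1 - p) ^ (2 * n - 2)) :=
              mul_le_mul_of_nonneg_left (mul_le_mul_of_nonneg_left h3 hp'.1.le) (by positivity)
          _ ≤ _ := mul_le_mul_of_nonneg_left h2 (by positivity)
      rw [hK, mul_assoc]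
      exact mul_le_mul_of_nonneg_left h4 hS
    have hoff : ∀ s : St n, s ≠ st0 n → Tendsto (fun p => v p s) (𝓝[>] 0) (𝓝 0) := by
      intro s hs
      have hg : Tendsto (fun p => ∑ a, |layR n p 1 (n - 1) s a| * K) (𝓝[>] (0 : ℝ)) (𝓝 0) := by
        have h1 : Tendsto (fun p => ∑ a, |layR n p 1 (n - 1) s a| * K) (𝓝[>] (0 : ℝ))
            (𝓝 (∑ a, |layR n 0 1 (n - 1) s a| * K)) := by
          refine tendsto_finsetSum _ fun a _ => Tendsto.mul_const _ (Tendsto.abs ?_)
          exact ((PFaux.lay_diff n (n - 1) 1 s a).continuous.tendsto 0).mono_left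
            nhdsWithin_le_nhds
        have h2 : ∑ a, |layR n 0 1 (n - 1) s a| * K = 0 := by
          refine sum_eq_zero fun a _ => ?_
          rw [PFaux.lay_zero, hz1, if_neg hs]
          simp
        rwa [h2] at h1
      refine squeeze_zero_norm' ?_ hg
      filter_upwards [hw, hIoo] with p hp hp'
      have hp1 : p < 1 := by have := hp'.2; linarith
      obtain ⟨b1, b2, b3, b4, b5⟩ := hvL p hp'.1 hp1
      have h1 : v p s = ∑ a, layR n p 1 (n - 1) s a * ((layR n p 0 n).mulVec (v p) a / L p) := by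
        have h2 : (TT n p).mulVec (v p) s = L p * v p s := by rw [b4]; rfl
        have h3 : (TT n p).mulVec (v p) s
            = ∑ a, layR n p 1 (n - 1) s a * (layR n p 0 n).mulVec (v p) a := by
          unfold TT
          rw [← Matrix.mulVec_mulVec]
          rfl
        rw [h3] at h2
        have h4 : v p s = (L p * v p s) / L p := by field_simp
        rw [h4, ← h2, sum_div]
        exact sum_congr rfl fun a _ => by ring
      rw [h1, Real.norm_eq_abs]
      refine (abs_sum_le_sum_abs _ _).trans (sum_le_sum fun a _ => ?_)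
      rw [abs_mul]
      exact mul_le_mul_of_nonneg_left (hp a) (abs_nonneg _)
    intro s
    by_cases hs : s = st0 n
    · rw [if_pos hs, hs]
      have h1 : Tendsto (fun p => 1 - ∑ a ∈ univ.erase (st0 n), v p a) (𝓝[>] (0 : ℝ))
          (𝓝 (1 - ∑ a ∈ univ.erase (st0 n), (0 : ℝ))) := by
        refine Tendsto.sub tendsto_const_nhds (tendsto_finsetSum _ fun a ha => ?_)
        exact hoff a (ne_of_mem_erase ha)
      simp only [sum_const_zero, sub_zero] at h1
      refine h1.congr' ?_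
      filter_upwards [hIoo] with p hp'
      have hp1 : p < 1 := by have := hp'.2; linarith
      obtain ⟨b1, b2, b3, b4, b5⟩ := hvL p hp'.1 hp1
      rw [← b2, ← add_sum_erase univ (fun a => v p a) (mem_univ (st0 n))]
      ring
    · rw [if_neg hs]
      exact hoff s hs

end W96CL
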